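import Pool.Agent.E8helper19.PM.Stm

/-!
# Project PM, piece PM9 (S_TR)
-/

set_option autoImplicit false
open MeasureTheory Filter Topology Set
open scoped ContDiff ENNReal Real InnerProductSpace
open Pool.Agent.E8helper19.PM

namespace Pool.Agent.E8helper95.PM

noncomputable section

theorem measurable_gr (f : E → ℂ) : Measurable (gr f) := by
  unfold gr pd
  exact (PiLp.continuous_toLp 2 _).measurable.comp
    (measurable_pi_lambda _ fun j => measurable_fderiv_apply_const ℝ f _)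

/-- Cauchy-Schwarz -/
theorem cs (μ : Measure E) (A B : E → ℝ) (hA : ∀ y, 0 ≤ A y) (hB : ∀ y, 0 ≤ B y)
    (hAm : AEStronglyMeasurable A μ) (hBm : AEStronglyMeasurable B μ)
    (hA2 : Integrable (fun y => A y ^ 2) μ) (hB2 : Integrable (fun y => B y ^ 2) μ) :
    Integrable (fun y => A y * B y) μ ∧
      ∫ y, A y * B y ∂μ ≤ √(∫ y, A y ^ 2 ∂μ) * √(∫ y, B y ^ 2 ∂μ) := by
  have hA' : MemLp A 2 μ := (memLp_two_iff_integrable_sq hAm).2 hA2
  have hB' : MemLp B 2 μ := (memLp_two_iff_integrable_sq hBm).2 hB2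
  refine ⟨hA'.integrable_mul hB', ?_⟩
  have h2 : ENNReal.ofReal 2 = 2 := by norm_num
  have := integral_mul_le_Lp_mul_Lq_of_nonneg (μ := μ) (p := 2) (q := 2)
    Real.HolderConjugate.two_two (Eventually.of_forall hA) (Eventually.of_forall hB)
    (by rw [h2]; exact hA') (by rw [h2]; exact hB')
  simpa [Real.sqrt_eq_rpow] using this

/-- the density of the energy -/
def den (f : E → ℂ) (y : E) : ℝ := ‖f y‖ ^ 2 + ‖gr f y‖ ^ 2

theorem den_nonneg (f : E → ℂ) (y : E) : 0 ≤ den f y := by unfold den; positivity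

theorem H1_eq (U : Set E) (f : E → ℂ) : H1 U f = ∫ y in U, den f y := rfl

theorem H1_nonneg (U : Set E) (f : E → ℂ) : 0 ≤ H1 U f :=
  integral_nonneg fun y => den_nonneg f y

theorem ptw (k : ℝ) (p q : E → ℂ) (y : E) :
    ‖⟪gr q y, gr p y⟫_ℂ - ((k ^ 2 : ℝ) : ℂ) * ((starRingEnd ℂ) (q y) * p y)‖ ≤
      (1 + k ^ 2) * (√(den q y) * √(den p y)) := by
  have h1 : ‖⟪gr q y, gr p y⟫_ℂ‖ ≤ ‖gr q y‖ * ‖gr p y‖ := norm_inner_le_norm _ _
  have h2 : ‖((k ^ 2 : ℝ) : ℂ) * ((starRingEnd ℂ) (q y) * p y)‖ = k ^ 2 * (‖q y‖ * ‖p y‖) := by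
    rw [norm_mul, norm_mul, RCLike.norm_conj, Complex.norm_real, Real.norm_eq_abs,
      abs_of_nonneg (sq_nonneg k)]
  have h3 : ‖gr q y‖ * ‖gr p y‖ + ‖q y‖ * ‖p y‖ ≤ √(den q y) * √(den p y) := by
    rw [← Real.sqrt_mul (den_nonneg q y)]
    apply Real.le_sqrt_of_sq_le
    unfold den
    nlinarith [sq_nonneg (‖gr q y‖ * ‖p y‖ - ‖q y‖ * ‖gr p y‖)]
  have h4 : 0 ≤ ‖gr q y‖ * ‖gr p y‖ := by positivity
  have h5 : 0 ≤ ‖q y‖ * ‖p y‖ := by positivity
  calc _ ≤ ‖⟪gr q y, gr p y⟫_ℂ‖ + ‖((k ^ 2 : ℝ) : ℂ) * ((starRingEnd ℂ) (q y) * p y)‖ :=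
        norm_sub_le _ _
    _ ≤ ‖gr q y‖ * ‖gr p y‖ + k ^ 2 * (‖q y‖ * ‖p y‖) := by rw [h2]; linarith
    _ ≤ (1 + k ^ 2) * (‖gr q y‖ * ‖gr p y‖ + ‖q y‖ * ‖p y‖) := by
        nlinarith [mul_nonneg (sq_nonneg k) h4]
    _ ≤ _ := by
        apply mul_le_mul_of_nonneg_left h3
        positivity

/-- the bound of the form over a set -/
theorem form_bound (k : ℝ) (U : Set E) (p q : E → ℂ)
    (hpm : AEStronglyMeasurable p (volume.restrict U))
    (hqm : AEStronglyMeasurable q (volume.restrict U))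
    (hp : IntegrableOn (den p) U) (hq : IntegrableOn (den q) U) :
    IntegrableOn
      (fun y => ⟪gr q y, gr p y⟫_ℂ - ((k ^ 2 : ℝ) : ℂ) * ((starRingEnd ℂ) (q y) * p y)) U ∧
    ‖form k U p (gr p) q‖ ≤ (1 + k ^ 2) * (√(H1 U q) * √(H1 U p)) := by
  have hs : ∀ (f : E → ℂ), AEStronglyMeasurable f (volume.restrict U) →
      AEStronglyMeasurable (fun y => √(den f y)) (volume.restrict U) := by
    intro f hf
    apply Real.continuous_sqrt.comp_aestronglyMeasurable
    exact (hf.norm.pow 2).add ((measurable_gr f).aestronglyMeasurable.norm.pow 2)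
  have hsq : ∀ (f : E → ℂ), (fun y => √(den f y) ^ 2) = den f := by
    intro f; funext y; exact Real.sq_sqrt (den_nonneg f y)
  have key := cs (volume.restrict U) (fun y => √(den q y)) (fun y => √(den p y))
    (fun y => Real.sqrt_nonneg _) (fun y => Real.sqrt_nonneg _) (hs q hqm) (hs p hpm)
    (by rw [hsq]; exact hq) (by rw [hsq]; exact hp)
  rw [hsq, hsq] at key
  obtain ⟨k1, k2⟩ := key
  constructor
  · refine Integrable.mono' (k1.const_mul (1 + k ^ 2)) ?_ (Eventually.of_forall fun y => ptw k p q y)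
    apply AEStronglyMeasurable.sub
    · exact ((measurable_gr q).inner (measurable_gr p)).aestronglyMeasurable
    · exact ((Complex.continuous_conj.comp_aestronglyMeasurable hqm).mul hpm).const_mul _
  · unfold form
    refine (norm_integral_le_of_norm_le (k1.const_mul (1 + k ^ 2))
      (Eventually.of_forall fun y => ptw k p q y)).trans ?_
    rw [integral_const_mul]
    apply mul_le_mul_of_nonneg_left k2
    positivity

theorem LTst.bound {Ω : Set E} {Φ : E → ℂ} (h : LTst Ω Φ) :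
    ∃ M : ℝ, 0 ≤ M ∧ ∀ y, den Φ y ≤ M := by
  obtain ⟨K, hK⟩ := h.lip
  obtain ⟨M, hM⟩ := h.cpt.exists_bound_of_continuous hK.continuous
  have hM0 : 0 ≤ M := (norm_nonneg _).trans (hM 0)
  refine ⟨M ^ 2 + 3 * (K : ℝ) ^ 2, by positivity, fun y => ?_⟩
  have h1 : ‖gr Φ y‖ ^ 2 ≤ 3 * (K : ℝ) ^ 2 := by
    rw [EuclideanSpace.norm_sq_eq]
    have : ∀ j : Fin 3, ‖(gr Φ y).ofLp j‖ ^ 2 ≤ (K : ℝ) ^ 2 := by
      intro j
      have h2 : ‖(gr Φ y).ofLp j‖ ≤ K := by
        show ‖fderiv ℝ Φ y (EuclideanSpace.single j 1)‖ ≤ K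
        refine ((fderiv ℝ Φ y).le_opNorm _).trans ?_
        have := norm_fderiv_le_of_lipschitz ℝ hK (x₀ := y)
        simpa using this
      exact pow_le_pow_left₀ (norm_nonneg _) h2 2
    calc _ ≤ ∑ j : Fin 3, (K : ℝ) ^ 2 := Finset.sum_le_sum fun j _ => this j
      _ = _ := by simp
  have h2 : ‖Φ y‖ ^ 2 ≤ M ^ 2 := pow_le_pow_left₀ (norm_nonneg _) (hM y) 2
  unfold den
  linarith

theorem den_intOn {U : Set E} {Φ : E → ℂ} (hU : volume U ≠ ⊤) (hc : Continuous Φ) {M : ℝ}
    (hM : ∀ y, den Φ y ≤ M) : IntegrableOn (den Φ) U := by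
  refine Measure.integrableOn_of_bounded (M := M) hU ?_ (Eventually.of_forall fun y => ?_)
  · exact (hc.aestronglyMeasurable.norm.pow 2).add
      ((measurable_gr Φ).aestronglyMeasurable.norm.pow 2)
  · rw [Real.norm_eq_abs, abs_of_nonneg (den_nonneg Φ y)]
    exact hM y

theorem SmoothSet.isOpen' {D : Set E} (h : SmoothSet D) : IsOpen D := by
  obtain ⟨ρ, hρ, rfl, -⟩ := h
  exact isOpen_lt hρ.continuous continuous_const

theorem ident (hN : S_NULL) (hG : S_GRN) {k : ℝ} {Ω D : Set E} (hΩ : IsOpen Ω)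
    (hb : Bornology.IsBounded Ω) (hD : SmoothSet D) (hDΩ : closure D ⊆ Ω) {v : E → ℂ}
    (hv : Helm k Ω v) {f Φ : E → ℂ} (hΦ : LTst Ω Φ) (he : ∀ y, y ∉ D → Φ y = f y) :
    form k (Ω \ closure D) v (gr v) f = - form k D v (gr v) Φ := by
  have hDo : IsOpen D := SmoothSet.isOpen' hD
  have hDm : MeasurableSet D := hDo.measurableSet
  have hcont : Continuous Φ := hΦ.lip.choose_spec.continuous
  have hvm : AEStronglyMeasurable v (volume.restrict Ω) :=
    hv.smooth.continuousOn.aestronglyMeasurable hΩ.measurableSet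
  obtain ⟨M, hM0, hM⟩ := LTst.bound hΦ
  have hvol : volume Ω ≠ ⊤ := hb.measure_lt_top.ne
  obtain ⟨hint, -⟩ := form_bound k Ω v Φ hvm hcont.aestronglyMeasurable hv.fin
    (den_intOn hvol hcont hM)
  have h0 : form k Ω v (gr v) Φ = 0 := hG k Ω v Φ hΩ hv.smooth hv.eq hΦ
  have hDsub : D ⊆ Ω := subset_closure.trans hDΩ
  -- the split
  have hsplit : form k Ω v (gr v) Φ = form k D v (gr v) Φ + form k (Ω \ D) v (gr v) Φ := by
    unfold form
    have hu : Ω = D ∪ (Ω \ D) := by
      ext y; constructor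
      · intro hy; by_cases h : y ∈ D
        · exact Or.inl h
        · exact Or.inr ⟨hy, h⟩
      · rintro (h | h)
        · exact hDsub h
        · exact h.1
    conv_lhs => rw [hu]
    exact setIntegral_union disjoint_sdiff_right (hΩ.measurableSet.diff hDm)
      (hint.mono_set hDsub) (hint.mono_set sdiff_subset)
  have hae : (Ω \ D : Set E) =ᵐ[volume] (Ω \ closure D : Set E) := by
    have hfr : volume (frontier D) = 0 := hN.1 D hD
    have : ∀ᵐ y ∂(volume : Measure E), y ∉ frontier D := by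
      rw [ae_iff]; simpa using hfr
    filter_upwards [this] with y hy
    have : (y ∈ D) = (y ∈ closure D) := by
      apply propext
      constructor
      · exact fun h => subset_closure h
      · intro h
        by_contra h'
        apply hy
        rw [hDo.frontier_eq]
        exact ⟨h, h'⟩
    show (y ∈ Ω ∧ ¬ y ∈ D) = (y ∈ Ω ∧ ¬ y ∈ closure D)
    rw [this]
  have hext : form k (Ω \ D) v (gr v) Φ = form k (Ω \ closure D) v (gr v) f := by
    have e1 : form k (Ω \ D) v (gr v) Φ = form k (Ω \ closure D) v (gr v) Φ := by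
      unfold form
      exact setIntegral_congr_set hae
    rw [e1]
    unfold form
    apply setIntegral_congr_fun (hΩ.measurableSet.diff isClosed_closure.measurableSet)
    intro y hy
    have hy2 : y ∈ (closure D)ᶜ := hy.2
    have hev : Φ =ᶠ[𝓝 y] f := by
      filter_upwards [isClosed_closure.isOpen_compl.mem_nhds hy2] with z hz
      exact he z fun h => hz (subset_closure h)
    have hgr : gr Φ y = gr f y := by
      unfold gr pd
      rw [hev.fderiv_eq]
    show ⟪gr Φ y, gr v y⟫_ℂ - ((k ^ 2 : ℝ) : ℂ) * ((starRingEnd ℂ) (Φ y) * v y) =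
      ⟪gr f y, gr v y⟫_ℂ - ((k ^ 2 : ℝ) : ℂ) * ((starRingEnd ℂ) (f y) * v y)
    rw [hgr, hev.eq_of_nhds]
  rw [h0, hext] at hsplit
  exact eq_neg_of_add_eq_zero_right hsplit.symm

/-- PM9 -/
theorem t_TR (hE : S_EXT) (hG : S_GRN) (hN : S_NULL) : S_TR := by
  intro k Ω D hΩ hb hD hDΩ
  obtain ⟨C₀, hC₀⟩ := hE Ω D hΩ hb hD hDΩ
  have hDo : IsOpen D := SmoothSet.isOpen' hD
  have hDsub : D ⊆ Ω := subset_closure.trans hDΩ
  have hvol : volume Ω ≠ ⊤ := hb.measure_lt_top.ne
  have hvolD : volume D ≠ ⊤ := (hb.subset hDsub).measure_lt_top.ne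
  constructor
  · refine ⟨(1 + k ^ 2) * √(max C₀ 0), fun v hv f hf => ?_⟩
    obtain ⟨Φ, hΦ, he, hH⟩ := hC₀ f hf
    rw [ident hN hG hΩ hb hD hDΩ hv hΦ he, norm_neg]
    have hcont : Continuous Φ := hΦ.lip.choose_spec.continuous
    have hvm : AEStronglyMeasurable v (volume.restrict Ω) :=
      hv.smooth.continuousOn.aestronglyMeasurable hΩ.measurableSet
    obtain ⟨M, hM0, hM⟩ := LTst.bound hΦ
    obtain ⟨-, hfb⟩ := form_bound k D v Φ (hvm.mono_set hDsub) hcont.aestronglyMeasurable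
      (hv.fin.mono_set hDsub) (den_intOn hvolD hcont hM)
    refine hfb.trans ?_
    have h1 : √(H1 D Φ) ≤ √(max C₀ 0) * √(H1 (Ω \ closure D) f) := by
      rw [← Real.sqrt_mul (le_max_right _ _)]
      apply Real.sqrt_le_sqrt
      exact hH.trans (mul_le_mul_of_nonneg_right (le_max_left _ _) (H1_nonneg _ _))
    have h2 : √(H1 D Φ) * √(H1 D v) ≤
        √(max C₀ 0) * √(H1 (Ω \ closure D) f) * √(H1 D v) :=
      mul_le_mul_of_nonneg_right h1 (Real.sqrt_nonneg _)
    calc (1 + k ^ 2) * (√(H1 D Φ) * √(H1 D v)) ≤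
        (1 + k ^ 2) * (√(max C₀ 0) * √(H1 (Ω \ closure D) f) * √(H1 D v)) :=
          mul_le_mul_of_nonneg_left h2 (by positivity)
      _ = _ := by ring
  · intro S v hS hS0 hv hH1 hK f hf
    obtain ⟨Φ, hΦ, he, hH⟩ := hC₀ f hf
    have hcont : Continuous Φ := hΦ.lip.choose_spec.continuous
    obtain ⟨M, hM0, hM⟩ := LTst.bound hΦ
    rw [Metric.tendsto_atTop]
    intro ε hε
    -- choice of the compact set
    set A : ℝ := (1 + k ^ 2) * √(M + 1) with hA
    have hApos : 0 < A := by positivity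
    obtain ⟨δ, hδ, hδε⟩ : ∃ δ : ℝ, 0 < δ ∧ (1 + k ^ 2) * √(M * δ) < ε / 2 := by
      refine ⟨(ε / (4 * A)) ^ 2, by positivity, ?_⟩
      have h1 : √(M * (ε / (4 * A)) ^ 2) ≤ √(M + 1) * (ε / (4 * A)) := by
        rw [Real.sqrt_mul hM0, Real.sqrt_sq (by positivity)]
        exact mul_le_mul_of_nonneg_right (Real.sqrt_le_sqrt (by linarith)) (by positivity)
      calc (1 + k ^ 2) * √(M * (ε / (4 * A)) ^ 2) ≤
          (1 + k ^ 2) * (√(M + 1) * (ε / (4 * A))) :=
            mul_le_mul_of_nonneg_left h1 (by positivity)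
        _ = A * (ε / (4 * A)) := by rw [hA]; ring
        _ = ε / 4 := by field_simp
        _ < ε / 2 := by linarith
    have hDS : MeasurableSet (D \ S) := hDo.measurableSet.diff hS.measurableSet
    have hDSv : volume (D \ S) ≠ ⊤ := ne_top_of_le_ne_top hvolD (measure_mono sdiff_subset)
    obtain ⟨K, hKs, hKc, hKv⟩ := hDS.exists_isCompact_sdiff_lt hDSv
      (ε := ENNReal.ofReal δ) (by simpa using hδ)
    have hKD : K ⊆ D := hKs.trans sdiff_subset
    have hKm : MeasurableSet K := hKc.measurableSet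
    have hvolK : volume (D \ K) ≤ ENNReal.ofReal δ := by
      have : D \ K ⊆ (D \ S) \ K ∪ S := by
        intro y hy
        by_cases h : y ∈ S
        · exact Or.inr h
        · exact Or.inl ⟨⟨hy.1, h⟩, hy.2⟩
      calc volume (D \ K) ≤ volume ((D \ S) \ K ∪ S) := measure_mono this
        _ ≤ volume ((D \ S) \ K) + volume S := measure_union_le _ _
        _ ≤ _ := by rw [hS0, add_zero]; exact hKv.le
    have hDKne : volume (D \ K) ≠ ⊤ := ne_top_of_le_ne_top ENNReal.ofReal_ne_top hvolK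
    have hH1Φ : H1 (D \ K) Φ ≤ M * δ := by
      have h1 : H1 (D \ K) Φ ≤ ∫ y in D \ K, M := by
        apply setIntegral_mono_on (den_intOn hDKne hcont hM) (integrableOn_const hDKne)
          (hDo.measurableSet.diff hKm)
        intro y _
        exact hM y
      refine h1.trans ?_
      rw [setIntegral_const, smul_eq_mul, mul_comm]
      apply mul_le_mul_of_nonneg_left _ hM0
      exact ENNReal.toReal_le_of_le_ofReal hδ.le hvolK
    -- the limit on the compact set
    have hlim : Tendsto (fun n => (1 + k ^ 2) * (√(H1 K Φ) * √(H1 K (v n)))) atTop (𝓝 0) := by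
      have h1 := hK K hKc hKs
      have h2 : Tendsto (fun n => √(H1 K (v n))) atTop (𝓝 0) := by
        have h4 := (Real.continuous_sqrt.tendsto 0).comp h1
        rw [Real.sqrt_zero] at h4
        exact h4
      have h3 := (h2.const_mul (√(H1 K Φ))).const_mul (1 + k ^ 2)
      simpa using h3
    obtain ⟨N, hN'⟩ := (Metric.tendsto_atTop.1 hlim) (ε / 2) (by positivity)
    refine ⟨N, fun n hn => ?_⟩
    rw [dist_zero_right, ident hN hG hΩ hb hD hDΩ (hv n) hΦ he, norm_neg]
    have hvm : AEStronglyMeasurable (v n) (volume.restrict Ω) :=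
      (hv n).smooth.continuousOn.aestronglyMeasurable hΩ.measurableSet
    have hKΩ : K ⊆ Ω := hKD.trans hDsub
    obtain ⟨i1, b1⟩ := form_bound k K (v n) Φ (hvm.mono_set hKΩ) hcont.aestronglyMeasurable
      ((hv n).fin.mono_set hKΩ)
      (den_intOn (ne_top_of_le_ne_top hvolD (measure_mono hKD)) hcont hM)
    obtain ⟨i2, b2⟩ := form_bound k (D \ K) (v n) Φ
      (hvm.mono_set (sdiff_subset.trans hDsub)) hcont.aestronglyMeasurable
      ((hv n).fin.mono_set (sdiff_subset.trans hDsub)) (den_intOn hDKne hcont hM)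
    have hsplit : form k D (v n) (gr (v n)) Φ =
        form k K (v n) (gr (v n)) Φ + form k (D \ K) (v n) (gr (v n)) Φ := by
      unfold form
      conv_lhs => rw [← union_sdiff_cancel hKD]
      exact setIntegral_union disjoint_sdiff_right (hDo.measurableSet.diff hKm) i1 i2
    have hle1 : H1 (D \ K) (v n) ≤ 1 := by
      refine le_trans ?_ (hH1 n)
      exact setIntegral_mono_set ((hv n).fin.mono_set hDsub)
        (Eventually.of_forall fun y => den_nonneg (v n) y) sdiff_subset.eventuallyLE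
    have hb2 : ‖form k (D \ K) (v n) (gr (v n)) Φ‖ < ε / 2 := by
      refine b2.trans_lt (lt_of_le_of_lt ?_ hδε)
      apply mul_le_mul_of_nonneg_left _ (by positivity)
      calc √(H1 (D \ K) Φ) * √(H1 (D \ K) (v n)) ≤ √(M * δ) * 1 := by
            apply mul_le_mul (Real.sqrt_le_sqrt hH1Φ) _ (Real.sqrt_nonneg _) (Real.sqrt_nonneg _)
            exact (Real.sqrt_le_sqrt hle1).trans Real.sqrt_one.le
        _ = _ := mul_one _
    have hb1 : ‖form k K (v n) (gr (v n)) Φ‖ < ε / 2 := by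
      refine b1.trans_lt ?_
      have := hN' n hn
      rw [dist_zero_right, Real.norm_eq_abs] at this
      exact (le_abs_self _).trans_lt this
    rw [hsplit]
    calc _ ≤ ‖form k K (v n) (gr (v n)) Φ‖ + ‖form k (D \ K) (v n) (gr (v n)) Φ‖ :=
          norm_add_le _ _
      _ < ε := by linarith

end

end Pool.Agent.E8helper95.PM
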